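import Mathlib

set_option autoImplicit false

/-!
The counting process behind the inequality between the numbers of permutations avoiding the uniform
distant patterns `1 2 ... m` and `1 2 ... (m-2) m (m-1)`.
-/

namespace Pool.Agent.Lib.MP_47869a_co

open Finset Function

/-- `Chain r w l i`: there is a chain of `l + 1` positions ending at `i`, with consecutive
positions differing by at least `r + 1` and with increasing values of `w`. -/
def Chain (r : ℕ) (w : ℕ → ℕ) : ℕ → ℕ → Prop
  | 0, _ => True
  | l + 1, i => ∃ i', i' + r + 1 ≤ i ∧ w i' < w i ∧ Chain r w l i'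

/-- The cell `(t, y)` has a chain of `k + 1` positions to its lower left. -/
def Cell (r k : ℕ) (w : ℕ → ℕ) (t y : ℕ) : Prop :=
  ∃ i, i + r + 1 ≤ t ∧ w i < y ∧ Chain r w k i

section basics

variable {r k n : ℕ} {w w' : ℕ → ℕ}

theorem chain_congr : ∀ (l i : ℕ), (∀ j ≤ i, w j = w' j) → (Chain r w l i ↔ Chain r w' l i)
  | 0, _, _ => Iff.rfl
  | l + 1, i, h => by
    constructor
    · rintro ⟨i', h1, h2, h3⟩
      refine ⟨i', h1, ?_, ?_⟩
      · rw [← h i' (by omega), ← h i le_rfl]; exact h2
      · exact (chain_congr l i' (fun j hj => h j (by omega))).1 h3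
    · rintro ⟨i', h1, h2, h3⟩
      refine ⟨i', h1, ?_, ?_⟩
      · rw [h i' (by omega), h i le_rfl]; exact h2
      · exact (chain_congr l i' (fun j hj => h j (by omega))).2 h3

theorem cell_congr {t : ℕ} (h : ∀ j < t, w j = w' j) (y : ℕ) :
    Cell r k w t y ↔ Cell r k w' t y := by
  constructor
  · rintro ⟨i, h1, h2, h3⟩
    refine ⟨i, h1, ?_, ?_⟩
    · rw [← h i (by omega)]; exact h2
    · exact (chain_congr k i (fun j hj => h j (by omega))).1 h3
  · rintro ⟨i, h1, h2, h3⟩
    refine ⟨i, h1, ?_, ?_⟩
    · rw [h i (by omega)]; exact h2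
    · exact (chain_congr k i (fun j hj => h j (by omega))).2 h3

theorem cell_mono {t t' y y' : ℕ} (ht : t ≤ t') (hy : y ≤ y') (h : Cell r k w t y) :
    Cell r k w t' y' := by
  obtain ⟨i, h1, h2, h3⟩ := h
  exact ⟨i, by omega, by omega, h3⟩

theorem chain_succ : ∀ (l i : ℕ), Chain r w (l + 1) i → Chain r w l i
  | 0, _, _ => trivial
  | l + 1, _, ⟨i', h1, h2, h3⟩ => ⟨i', h1, h2, chain_succ l i' h3⟩

/-- Replace every value having a chain of `k + 1` positions to its lower left by `n`. -/
noncomputable def env (r k n : ℕ) (w : ℕ → ℕ) : ℕ → ℕ := by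
  classical
  exact fun i => if Cell r k w i (w i) then n else w i

theorem env_pos {i : ℕ} (h : Cell r k w i (w i)) : env r k n w i = n := by
  simp [env, h]

theorem env_neg {i : ℕ} (h : ¬ Cell r k w i (w i)) : env r k n w i = w i := by
  simp [env, h]

theorem chain_env : ∀ (l i : ℕ), Chain r w l i → ¬ Cell r k w i (w i) →
    Chain r (env r k n w) l i
  | 0, _, _, _ => trivial
  | l + 1, i, ⟨i', h1, h2, h3⟩, hn => by
    have hi' : ¬ Cell r k w i' (w i') := by
      intro hc
      apply hn
      have : Chain r w (k + 2) i := ⟨i', h1, h2, hc⟩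
      exact chain_succ (k + 1) i this
    refine ⟨i', h1, ?_, chain_env l i' h3 hi'⟩
    rw [env_neg hi', env_neg hn]
    exact h2

theorem env_chain : ∀ (l i : ℕ), Chain r (env r k n w) l i → env r k n w i < n →
    Chain r w l i
  | 0, _, _, _ => trivial
  | l + 1, i, ⟨i', h1, h2, h3⟩, hn => by
    have hi : ¬ Cell r k w i (w i) := by
      intro hc
      rw [env_pos hc] at hn
      exact lt_irrefl _ hn
    have hi' : ¬ Cell r k w i' (w i') := by
      intro hc
      rw [env_pos hc] at h2
      omega
    refine ⟨i', h1, ?_, env_chain l i' h3 (by omega)⟩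
    rw [env_neg hi', env_neg hi] at h2
    exact h2

theorem cell_env {t : ℕ} : ∀ {y : ℕ}, y ≤ n → (∀ i < t, w i < n) →
    (Cell r k (env r k n w) t y ↔ Cell r k w t y) := by
  induction t using Nat.strong_induction_on with
  | _ t ih =>
    intro y hy hw
    constructor
    · rintro ⟨i, h1, h2, h3⟩
      have hi : ¬ Cell r k w i (w i) := by
        intro hc
        rw [env_pos hc] at h2
        omega
      have h4 := env_chain k i h3 (by omega)
      rw [env_neg hi] at h2
      exact ⟨i, h1, h2, h4⟩
    · rintro ⟨i, h1, h2, h3⟩
      by_cases hi : Cell r k w i (w i)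
      · have h4 := (ih i (by omega) (y := w i) (hw i (by omega)).le
          (fun j hj => hw j (by omega))).2 hi
        exact cell_mono (by omega) h2.le h4
      · refine ⟨i, h1, ?_, chain_env k i h3 hi⟩
        rw [env_neg hi]
        exact h2

end basics

/-- `y` is not among the first `t` values. -/
def Free (w : ℕ → ℕ) (t y : ℕ) : Prop := ∀ i < t, w i ≠ y

open scoped Classical in
/-- Free values in range. -/
noncomputable def Hi (r k n : ℕ) (w : ℕ → ℕ) (t : ℕ) : Finset ℕ :=
  (range n).filter (fun y => Free w t y ∧ Cell r k w t y)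

open scoped Classical in
/-- Free values out of range. -/
noncomputable def Low (r k n : ℕ) (w : ℕ → ℕ) (t : ℕ) : Finset ℕ :=
  (range n).filter (fun y => Free w t y ∧ ¬ Cell r k w t y)

open scoped Classical in
/-- Number of values coming in range after value `v` is played at time `t`. -/
noncomputable def New (r k n : ℕ) (e : ℕ → ℕ) (t v : ℕ) : ℕ :=
  ((Low r k n e t).filter (fun y => y ≠ v ∧ Cell r k (update e t v) (t + 1) y)).card

/-- The process. -/
noncomputable def V (r k n : ℕ) : ℕ → ℕ → (ℕ → ℕ) → Multiset ℕ → ℕ → ℕ
  | 0, _, _, _, _ => 1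
  | s + 1, t, e, F, m =>
      (∑ v ∈ Low r k n e t, V r k n s (t + 1) (update e t v) F (m + New r k n e t v)) +
      ((F.map (fun x => if t < x then
        V r k n s (t + 1) (update e t n) (F.erase x) (m + New r k n e t n) else 0)).sum +
      ∑ j ∈ range m, V r k n s (t + 1) (update e t n) (F + Multiset.replicate j (t + r + 1))
        (m - 1 - j + New r k n e t n))

section process

variable {r k n : ℕ}

theorem low_congr {e e' : ℕ → ℕ} {t : ℕ} (h : ∀ i < t, e i = e' i) :
    Low r k n e t = Low r k n e' t := by
  classical
  ext y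
  simp only [Low, mem_filter, mem_range]
  have h1 : Free e t y ↔ Free e' t y := by
    constructor
    · intro hf i hi; rw [← h i hi]; exact hf i hi
    · intro hf i hi; rw [h i hi]; exact hf i hi
  rw [h1, cell_congr h]

theorem update_agree {e e' : ℕ → ℕ} {t v : ℕ} (h : ∀ i < t, e i = e' i) :
    ∀ i < t + 1, update e t v i = update e' t v i := by
  intro i hi
  by_cases hit : i = t
  · subst hit; simp
  · rw [update_of_ne hit, update_of_ne hit]
    exact h i (by omega)

theorem new_congr {e e' : ℕ → ℕ} {t v : ℕ} (h : ∀ i < t, e i = e' i) :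
    New r k n e t v = New r k n e' t v := by
  classical
  unfold New
  rw [low_congr h]
  congr 1
  ext y
  simp only [mem_filter]
  rw [cell_congr (update_agree h)]

theorem V_congr : ∀ (s t : ℕ) (e e' : ℕ → ℕ) (F : Multiset ℕ) (m : ℕ), (∀ i < t, e i = e' i) →
    V r k n s t e F m = V r k n s t e' F m
  | 0, _, _, _, _, _, _ => rfl
  | s + 1, t, e, e', F, m, h => by
    simp only [V]
    rw [low_congr h]
    congr 1
    · apply Finset.sum_congr rfl
      intro v _
      rw [new_congr h]
      exact V_congr s (t + 1) _ _ _ _ (update_agree h)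
    · congr 1
      · congr 1
        apply Multiset.map_congr rfl
        intro x _
        rw [new_congr h, V_congr s (t + 1) _ _ _ _ (update_agree (v := n) h)]
      · apply Finset.sum_congr rfl
        intro j _
        rw [new_congr h]
        exact V_congr s (t + 1) _ _ _ _ (update_agree h)

theorem V_mono_a : ∀ (s t : ℕ) (e : ℕ → ℕ) (F : Multiset ℕ) (m : ℕ) (f f' : ℕ), f ≤ f' →
    V r k n s t e (f ::ₘ F) m ≤ V r k n s t e (f' ::ₘ F) m
  | 0, _, _, _, _, _, _, _ => le_rfl
  | s + 1, t, e, F, m, f, f', hf => by
    simp only [V, Multiset.map_cons, Multiset.sum_cons, Multiset.erase_cons_head,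
      Multiset.cons_add]
    have e1 : ∀ g : ℕ, (F.map (fun x => if t < x then
        V r k n s (t + 1) (update e t n) ((g ::ₘ F).erase x) (m + New r k n e t n) else 0)) =
        F.map (fun x => if t < x then
        V r k n s (t + 1) (update e t n) (g ::ₘ F.erase x) (m + New r k n e t n) else 0) := by
      intro g
      apply Multiset.map_congr rfl
      intro x hx
      rw [Multiset.erase_cons_tail_of_mem hx]
    rw [e1 f, e1 f']
    apply Nat.add_le_add
    · exact Finset.sum_le_sum (fun v _ => V_mono_a s (t + 1) _ _ _ _ _ hf)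
    · apply Nat.add_le_add
      · apply Nat.add_le_add
        · split_ifs with h1 h2 h2
          · exact le_rfl
          · omega
          · exact Nat.zero_le _
          · exact le_rfl
        · apply Multiset.sum_map_le_sum_map
          intro x _
          split_ifs
          · exact V_mono_a s (t + 1) _ _ _ _ _ hf
          · exact le_rfl
      · exact Finset.sum_le_sum (fun j _ => V_mono_a s (t + 1) _ _ _ _ _ hf)

theorem V_mono_b : ∀ (s t : ℕ) (e : ℕ → ℕ) (F : Multiset ℕ) (m : ℕ) (f : ℕ), f ≤ t + r + 1 →
    V r k n s t e (f ::ₘ F) m ≤ V r k n s t e F (m + 1)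
  | 0, _, _, _, _, _, _ => le_rfl
  | s + 1, t, e, F, m, f, hf => by
    simp only [V, Multiset.map_cons, Multiset.sum_cons, Multiset.erase_cons_head,
      Multiset.cons_add]
    have e1 : (F.map (fun x => if t < x then
        V r k n s (t + 1) (update e t n) ((f ::ₘ F).erase x) (m + New r k n e t n) else 0)) =
        F.map (fun x => if t < x then
        V r k n s (t + 1) (update e t n) (f ::ₘ F.erase x) (m + New r k n e t n) else 0) := by
      apply Multiset.map_congr rfl
      intro x hx
      rw [Multiset.erase_cons_tail_of_mem hx]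
    rw [e1]
    have hA : (∑ v ∈ Low r k n e t,
        V r k n s (t + 1) (update e t v) (f ::ₘ F) (m + New r k n e t v)) ≤
        ∑ v ∈ Low r k n e t, V r k n s (t + 1) (update e t v) F (m + 1 + New r k n e t v) := by
      apply Finset.sum_le_sum
      intro v _
      have := V_mono_b s (t + 1) (update e t v) F (m + New r k n e t v) f (by omega)
      rwa [show m + New r k n e t v + 1 = m + 1 + New r k n e t v by ring] at this
    have hB : (F.map (fun x => if t < x then
        V r k n s (t + 1) (update e t n) (f ::ₘ F.erase x) (m + New r k n e t n) else 0)).sum ≤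
        (F.map (fun x => if t < x then
        V r k n s (t + 1) (update e t n) (F.erase x) (m + 1 + New r k n e t n) else 0)).sum := by
      apply Multiset.sum_map_le_sum_map
      intro x _
      split_ifs
      · have := V_mono_b s (t + 1) (update e t n) (F.erase x) (m + New r k n e t n) f (by omega)
        rwa [show m + New r k n e t n + 1 = m + 1 + New r k n e t n by ring] at this
      · exact le_rfl
    have hC : (if t < f then V r k n s (t + 1) (update e t n) F (m + New r k n e t n) else 0) +
        ∑ j ∈ range m, V r k n s (t + 1) (update e t n)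
          (f ::ₘ (F + Multiset.replicate j (t + r + 1))) (m - 1 - j + New r k n e t n) ≤
        ∑ j ∈ range (m + 1), V r k n s (t + 1) (update e t n)
          (F + Multiset.replicate j (t + r + 1)) (m + 1 - 1 - j + New r k n e t n) := by
      rw [Finset.sum_range_succ', add_comm]
      apply Nat.add_le_add
      · apply Finset.sum_le_sum
        intro j hj
        have := V_mono_a (r := r) (k := k) (n := n) s (t + 1) (update e t n)
          (F + Multiset.replicate j (t + r + 1)) (m - 1 - j + New r k n e t n) f (t + r + 1) hf
        rw [Multiset.replicate_succ, Multiset.add_cons,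
          show m + 1 - 1 - (j + 1) = m - 1 - j by omega]
        exact this
      · simp only [Multiset.replicate_zero, add_zero, Nat.add_sub_cancel, Nat.sub_zero]
        split_ifs
        · exact le_rfl
        · exact Nat.zero_le _
    omega

theorem V_mono_rep (s t : ℕ) (e : ℕ → ℕ) (F : Multiset ℕ) (f : ℕ) (hf : f ≤ t + r + 1) :
    ∀ (a m : ℕ), V r k n s t e (F + Multiset.replicate a f) m ≤ V r k n s t e F (m + a)
  | 0, m => by simp
  | a + 1, m => by
    rw [Multiset.replicate_succ, Multiset.add_cons]
    refine (V_mono_b s t e _ m f hf).trans ?_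
    have := V_mono_rep s t e F f hf a (m + 1)
    rwa [show m + 1 + a = m + (a + 1) by ring] at this

end process

end Pool.Agent.Lib.MP_47869a_co
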