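import Mathlib
import Pool.Agent.Lib.MP_47869a_co.Process

set_option autoImplicit false

/-!
One step of the process for actual sequences.
-/

namespace Pool.Agent.Lib.MP_47869a_co

open Finset Function

section rank

theorem rank_sum_lt (S : Finset ℕ) (φ : ℕ → ℕ) :
    ∑ y ∈ S, φ (S.filter (fun z => z < y)).card = ∑ j ∈ range S.card, φ j := by
  induction S using Finset.induction_on_max with
  | empty => simp
  | insert a S hmax ih =>
    have ha : a ∉ S := fun h => lt_irrefl _ (hmax a h)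
    rw [Finset.sum_insert ha, Finset.card_insert_of_notMem ha, Finset.sum_range_succ, add_comm]
    congr 1
    · rw [← ih]
      apply Finset.sum_congr rfl
      intro y hy
      congr 2
      rw [Finset.filter_insert, if_neg]
      have := hmax y hy
      omega
    · congr 1
      rw [Finset.filter_insert, if_neg (lt_irrefl a), Finset.filter_true_of_mem]
      exact fun z hz => hmax z hz

theorem rank_sum_gt (S : Finset ℕ) (φ : ℕ → ℕ) :
    ∑ y ∈ S, φ (S.filter (fun z => y < z)).card = ∑ j ∈ range S.card, φ j := by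
  induction S using Finset.induction_on_min with
  | empty => simp
  | insert a S hmin ih =>
    have ha : a ∉ S := fun h => lt_irrefl _ (hmin a h)
    rw [Finset.sum_insert ha, Finset.card_insert_of_notMem ha, Finset.sum_range_succ, add_comm]
    congr 1
    · rw [← ih]
      apply Finset.sum_congr rfl
      intro y hy
      congr 2
      rw [Finset.filter_insert, if_neg]
      have := hmin y hy
      omega
    · congr 1
      rw [Finset.filter_insert, if_neg (lt_irrefl a), Finset.filter_true_of_mem]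
      exact fun z hz => hmin z hz

end rank

section state

variable (r k n : ℕ) (ρ : ℕ → ℕ → Prop)

/-- `y` must be placed before some deadline. -/
def Urg (w : ℕ → ℕ) (t y : ℕ) : Prop :=
  ∃ c, c < t ∧ Cell r k w c y ∧ Cell r k w c (w c) ∧ ρ (w c) y

/-- The deadline of `y`. -/
noncomputable def dl (w : ℕ → ℕ) (t y : ℕ) : ℕ :=
  sInf {c | c < t ∧ Cell r k w c y ∧ Cell r k w c (w c) ∧ ρ (w c) y} + r + 1

open scoped Classical in
noncomputable def U (w : ℕ → ℕ) (t : ℕ) : Finset ℕ :=
  (Hi r k n w t).filter (fun y => Urg r k ρ w t y)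

open scoped Classical in
noncomputable def N (w : ℕ → ℕ) (t : ℕ) : Finset ℕ :=
  (Hi r k n w t).filter (fun y => ¬ Urg r k ρ w t y)

noncomputable def FF (w : ℕ → ℕ) (t : ℕ) : Multiset ℕ :=
  (U r k n ρ w t).val.map (dl r k ρ w t)

/-- No far pair violates the avoidance condition among the first `t` values. -/
def Good (w : ℕ → ℕ) (t : ℕ) : Prop :=
  ∀ c c', c' < t → c + r + 1 ≤ c' → Cell r k w c (w c') → Cell r k w c (w c) → ¬ ρ (w c) (w c')

open scoped Classical in
/-- Number of ways to complete a sequence. -/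
noncomputable def Cnt (P : (ℕ → ℕ) → Prop) : ℕ → ℕ → (ℕ → ℕ) → ℕ
  | 0, _, w => if P w then 1 else 0
  | s + 1, t, w => ∑ y ∈ (range n).filter (fun y => Free w t y), Cnt P s (t + 1) (update w t y)

end state

section step

variable {r k n : ℕ} {ρ : ℕ → ℕ → Prop}

theorem agree_update (w : ℕ → ℕ) (t y : ℕ) : ∀ i < t, update w t y i = w i := by
  intro i hi
  rw [update_of_ne (by omega)]

theorem cell_update {w : ℕ → ℕ} {t y c : ℕ} (hc : c ≤ t) (z : ℕ) :
    Cell r k (update w t y) c z ↔ Cell r k w c z :=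
  cell_congr (fun i hi => agree_update w t y i (by omega)) z

theorem free_update {w : ℕ → ℕ} {t y z : ℕ} :
    Free (update w t y) (t + 1) z ↔ Free w t z ∧ z ≠ y := by
  constructor
  · intro h
    refine ⟨fun i hi => ?_, fun hzy => ?_⟩
    · rw [← agree_update w t y i hi]
      exact h i (by omega)
    · have := h t (by omega)
      rw [update_self] at this
      exact this hzy.symm
  · rintro ⟨h1, h2⟩ i hi
    by_cases hit : i = t
    · subst hit
      rw [update_self]
      exact h2.symm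
    · rw [agree_update w t y i (by omega)]
      exact h1 i (by omega)

theorem mem_Hi {w : ℕ → ℕ} {t z : ℕ} :
    z ∈ Hi r k n w t ↔ z < n ∧ Free w t z ∧ Cell r k w t z := by
  simp [Hi]

theorem mem_Low {w : ℕ → ℕ} {t z : ℕ} :
    z ∈ Low r k n w t ↔ z < n ∧ Free w t z ∧ ¬ Cell r k w t z := by
  simp [Low]

theorem mem_U {w : ℕ → ℕ} {t z : ℕ} :
    z ∈ U r k n ρ w t ↔ z ∈ Hi r k n w t ∧ Urg r k ρ w t z := by
  simp [U]

theorem mem_N {w : ℕ → ℕ} {t z : ℕ} :
    z ∈ N r k n ρ w t ↔ z ∈ Hi r k n w t ∧ ¬ Urg r k ρ w t z := by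
  simp [N]

open scoped Classical in
noncomputable def NewSet (r k n : ℕ) (w : ℕ → ℕ) (t y : ℕ) : Finset ℕ :=
  (Low r k n w t).filter (fun z => z ≠ y ∧ Cell r k (update w t y) (t + 1) z)

theorem mem_NewSet {w : ℕ → ℕ} {t y z : ℕ} : z ∈ NewSet r k n w t y ↔
    z ∈ Low r k n w t ∧ z ≠ y ∧ Cell r k (update w t y) (t + 1) z := by
  simp [NewSet]

theorem mem_Hi_update {w : ℕ → ℕ} {t y z : ℕ} :
    z ∈ Hi r k n (update w t y) (t + 1) ↔
      (z ∈ Hi r k n w t ∧ z ≠ y) ∨ z ∈ NewSet r k n w t y := by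
  rw [mem_Hi, free_update, mem_NewSet, mem_Hi, mem_Low]
  constructor
  · rintro ⟨h1, ⟨h2, h3⟩, h4⟩
    by_cases hc : Cell r k w t z
    · exact Or.inl ⟨⟨h1, h2, hc⟩, h3⟩
    · exact Or.inr ⟨⟨h1, h2, hc⟩, h3, h4⟩
  · rintro (⟨⟨h1, h2, h3⟩, h4⟩ | ⟨⟨h1, h2, h3⟩, h4, h5⟩)
    · refine ⟨h1, ⟨h2, h4⟩, ?_⟩
      have h5 : Cell r k (update w t y) t z := (cell_update le_rfl z).2 h3
      exact cell_mono (by omega) le_rfl h5
    · exact ⟨h1, ⟨h2, h4⟩, h5⟩

theorem urg_update {w : ℕ → ℕ} {t y z : ℕ} :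
    Urg r k ρ (update w t y) (t + 1) z ↔
      Urg r k ρ w t z ∨ (Cell r k w t z ∧ Cell r k w t y ∧ ρ y z) := by
  constructor
  · rintro ⟨c, hc, h1, h2, h3⟩
    by_cases hct : c = t
    · subst hct
      rw [update_self] at h2 h3
      rw [cell_update le_rfl] at h1 h2
      exact Or.inr ⟨h1, h2, h3⟩
    · have hlt : c < t := by omega
      rw [agree_update w t y c hlt] at h2 h3
      rw [cell_update hlt.le] at h1 h2
      exact Or.inl ⟨c, hlt, h1, h2, h3⟩
  · rintro (⟨c, hc, h1, h2, h3⟩ | ⟨h1, h2, h3⟩)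
    · refine ⟨c, by omega, ?_, ?_, ?_⟩
      · rw [cell_update hc.le]; exact h1
      · rw [agree_update w t y c hc, cell_update hc.le]; exact h2
      · rw [agree_update w t y c hc]; exact h3
    · refine ⟨t, by omega, ?_, ?_, ?_⟩
      · rw [cell_update le_rfl]; exact h1
      · rw [update_self, cell_update le_rfl]; exact h2
      · rw [update_self]; exact h3

theorem urg_cell {w : ℕ → ℕ} {t z : ℕ} (h : Urg r k ρ w t z) : Cell r k w t z := by
  obtain ⟨c, hc, h1, -, -⟩ := h
  exact cell_mono hc.le le_rfl h1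

theorem dl_update_old {w : ℕ → ℕ} {t y z : ℕ} (h : Urg r k ρ w t z) :
    dl r k ρ (update w t y) (t + 1) z = dl r k ρ w t z := by
  unfold dl
  congr 2
  have hne : {c | c < t ∧ Cell r k w c z ∧ Cell r k w c (w c) ∧ ρ (w c) z}.Nonempty := h
  have hsub : ∀ c, c < t → ((c < t + 1 ∧ Cell r k (update w t y) c z ∧
      Cell r k (update w t y) c (update w t y c) ∧ ρ (update w t y c) z) ↔
      (c < t ∧ Cell r k w c z ∧ Cell r k w c (w c) ∧ ρ (w c) z)) := by
    intro c hc
    rw [agree_update w t y c hc, cell_update hc.le, cell_update hc.le]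
    constructor
    · rintro ⟨_, h2⟩; exact ⟨hc, h2⟩
    · rintro ⟨_, h2⟩; exact ⟨by omega, h2⟩
  have hmem := Nat.sInf_mem hne
  apply le_antisymm
  · apply Nat.sInf_le
    exact (hsub _ hmem.1).2 hmem
  · apply Nat.sInf_le
    have hne' : {c | c < t + 1 ∧ Cell r k (update w t y) c z ∧
      Cell r k (update w t y) c (update w t y c) ∧ ρ (update w t y c) z}.Nonempty :=
      ⟨_, (hsub _ hmem.1).2 hmem⟩
    have hmem' := Nat.sInf_mem hne'
    refine (hsub _ ?_).1 hmem'
    refine lt_of_le_of_lt (Nat.sInf_le ((hsub _ hmem.1).2 hmem)) hmem.1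

theorem dl_update_new {w : ℕ → ℕ} {t y z : ℕ} (h : ¬ Urg r k ρ w t z)
    (h1 : Cell r k w t z) (h2 : Cell r k w t y) (h3 : ρ y z) :
    dl r k ρ (update w t y) (t + 1) z = t + r + 1 := by
  unfold dl
  congr 2
  have hset : {c | c < t + 1 ∧ Cell r k (update w t y) c z ∧
      Cell r k (update w t y) c (update w t y c) ∧ ρ (update w t y c) z} = {t} := by
    ext c
    simp only [Set.mem_ofPred_eq, Set.mem_singleton_iff]
    constructor
    · rintro ⟨hc, k1, k2, k3⟩
      by_contra hct
      have hlt : c < t := by omega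
      apply h
      rw [agree_update w t y c hlt] at k2 k3
      rw [cell_update hlt.le] at k1 k2
      exact ⟨c, hlt, k1, k2, k3⟩
    · rintro rfl
      refine ⟨by omega, ?_, ?_, ?_⟩
      · rw [cell_update le_rfl]; exact h1
      · rw [update_self, cell_update le_rfl]; exact h2
      · rw [update_self]; exact h3
  rw [hset, csInf_singleton]

open scoped Classical in
/-- The newly urgent values. -/
noncomputable def B (r k n : ℕ) (ρ : ℕ → ℕ → Prop) (w : ℕ → ℕ) (t y : ℕ) : Finset ℕ :=
  (N r k n ρ w t).filter (fun z => z ≠ y ∧ Cell r k w t y ∧ ρ y z)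

theorem mem_B {w : ℕ → ℕ} {t y z : ℕ} : z ∈ B r k n ρ w t y ↔
    z ∈ N r k n ρ w t ∧ z ≠ y ∧ Cell r k w t y ∧ ρ y z := by
  simp [B]

theorem not_urg_new {w : ℕ → ℕ} {t y z : ℕ} (h : z ∈ Low r k n w t) :
    ¬ Urg r k ρ (update w t y) (t + 1) z := by
  rw [mem_Low] at h
  rw [urg_update]
  rintro (h1 | h1)
  · exact h.2.2 (urg_cell h1)
  · exact h.2.2 h1.1

theorem U_update {w : ℕ → ℕ} {t y : ℕ} :
    U r k n ρ (update w t y) (t + 1) = (U r k n ρ w t).erase y ∪ B r k n ρ w t y := by
  ext z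
  rw [mem_U, mem_Hi_update, mem_union, mem_erase, mem_U, mem_B, mem_N]
  constructor
  · rintro ⟨⟨h1, h2⟩ | h1, h3⟩
    · rw [urg_update] at h3
      by_cases hu : Urg r k ρ w t z
      · exact Or.inl ⟨h2, h1, hu⟩
      · rcases h3 with h3 | h3
        · exact absurd h3 hu
        · exact Or.inr ⟨⟨h1, hu⟩, h2, h3.2⟩
    · rw [mem_NewSet] at h1
      exact absurd h3 (not_urg_new h1.1)
  · rintro (⟨h1, h2, h3⟩ | ⟨⟨h1, h2⟩, h3, h4, h5⟩)
    · refine ⟨Or.inl ⟨h2, h1⟩, ?_⟩
      rw [urg_update]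
      exact Or.inl h3
    · refine ⟨Or.inl ⟨h1, h3⟩, ?_⟩
      rw [urg_update]
      exact Or.inr ⟨(mem_Hi.1 h1).2.2, h4, h5⟩

theorem N_update {w : ℕ → ℕ} {t y : ℕ} :
    N r k n ρ (update w t y) (t + 1) =
      ((N r k n ρ w t).erase y \ B r k n ρ w t y) ∪ NewSet r k n w t y := by
  ext z
  rw [mem_N, mem_Hi_update, mem_union, mem_sdiff, mem_erase, mem_B]
  constructor
  · rintro ⟨⟨h1, h2⟩ | h1, h3⟩
    · rw [urg_update] at h3
      push Not at h3
      have hN : z ∈ N r k n ρ w t := mem_N.2 ⟨h1, h3.1⟩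
      exact Or.inl ⟨⟨h2, hN⟩, fun h4 => h3.2 (mem_Hi.1 h1).2.2 h4.2.2.1 h4.2.2.2⟩
    · exact Or.inr h1
  · rintro (⟨⟨h1, h2⟩, h3⟩ | h1)
    · rw [mem_N] at h2
      refine ⟨Or.inl ⟨h2.1, h1⟩, ?_⟩
      rw [urg_update]
      rintro (h4 | h4)
      · exact h2.2 h4
      · exact h3 ⟨mem_N.2 h2, h1, h4.2⟩
    · exact ⟨Or.inr h1, not_urg_new (mem_NewSet.1 h1).1⟩

theorem disj_U_B {w : ℕ → ℕ} {t y : ℕ} :
    Disjoint ((U r k n ρ w t).erase y) (B r k n ρ w t y) := by
  rw [Finset.disjoint_left]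
  intro z hz hz'
  rw [mem_erase, mem_U] at hz
  rw [mem_B, mem_N] at hz'
  exact hz'.1.2 hz.2.2

theorem disj_N_New {w : ℕ → ℕ} {t y : ℕ} :
    Disjoint ((N r k n ρ w t).erase y \ B r k n ρ w t y) (NewSet r k n w t y) := by
  rw [Finset.disjoint_left]
  intro z hz hz'
  rw [mem_sdiff, mem_erase, mem_N, mem_Hi] at hz
  rw [mem_NewSet, mem_Low] at hz'
  exact hz'.1.2.2 hz.1.2.1.2.2

theorem FF_update {w : ℕ → ℕ} {t y : ℕ} :
    FF r k n ρ (update w t y) (t + 1) =
      ((U r k n ρ w t).erase y).val.map (dl r k ρ w t) +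
        Multiset.replicate (B r k n ρ w t y).card (t + r + 1) := by
  unfold FF
  rw [U_update, ← Finset.disjUnion_eq_union _ _ disj_U_B]
  show Multiset.map _ (((U r k n ρ w t).erase y).val + (B r k n ρ w t y).val) = _
  rw [Multiset.map_add]
  congr 1
  · apply Multiset.map_congr rfl
    intro z hz
    have hz' : z ∈ (U r k n ρ w t).erase y := hz
    rw [mem_erase, mem_U] at hz'
    exact dl_update_old hz'.2.2
  · rw [Multiset.eq_replicate]
    refine ⟨by simp, ?_⟩
    intro b hb
    rw [Multiset.mem_map] at hb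
    obtain ⟨z, hz, rfl⟩ := hb
    have hz' : z ∈ B r k n ρ w t y := hz
    rw [mem_B, mem_N, mem_Hi] at hz'
    exact dl_update_new hz'.1.2 hz'.1.1.2.2 hz'.2.2.1 hz'.2.2.2

theorem cardN_update {w : ℕ → ℕ} {t y : ℕ} :
    (N r k n ρ (update w t y) (t + 1)).card =
      ((N r k n ρ w t).erase y).card - (B r k n ρ w t y).card + (NewSet r k n w t y).card := by
  rw [N_update, Finset.card_union_of_disjoint disj_N_New, Finset.card_sdiff_of_subset]
  intro z hz
  rw [mem_B] at hz
  exact mem_erase.2 ⟨hz.2.1, hz.1⟩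

theorem env_update {w : ℕ → ℕ} {t y : ℕ} (hlow : ¬ Cell r k w t y) :
    ∀ i < t + 1, env r k n (update w t y) i = update (env r k n w) t y i := by
  intro i hi
  by_cases hit : i = t
  · subst hit
    rw [update_self, env_neg, update_self]
    rw [update_self, cell_update le_rfl]
    exact hlow
  · have hlt : i < t := by omega
    rw [agree_update (env r k n w) t y i hlt]
    by_cases hc : Cell r k w i (w i)
    · rw [env_pos hc, env_pos]
      rw [agree_update w t y i hlt, cell_update hlt.le]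
      exact hc
    · rw [env_neg hc, env_neg]
      · exact agree_update w t y i hlt
      · rw [agree_update w t y i hlt, cell_update hlt.le]
        exact hc

theorem env_update' {w : ℕ → ℕ} {t y : ℕ} (hhi : Cell r k w t y) :
    ∀ i < t + 1, env r k n (update w t y) i = update (env r k n w) t n i := by
  intro i hi
  by_cases hit : i = t
  · subst hit
    rw [update_self, env_pos]
    rw [update_self, cell_update le_rfl]
    exact hhi
  · have hlt : i < t := by omega
    rw [agree_update (env r k n w) t n i hlt]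
    by_cases hc : Cell r k w i (w i)
    · rw [env_pos hc, env_pos]
      rw [agree_update w t y i hlt, cell_update hlt.le]
      exact hc
    · rw [env_neg hc, env_neg]
      · exact agree_update w t y i hlt
      · rw [agree_update w t y i hlt, cell_update hlt.le]
        exact hc

theorem low_env {w : ℕ → ℕ} {t : ℕ} (hw : ∀ i < t, w i < n) :
    Low r k n (env r k n w) t = Low r k n w t := by
  ext z
  rw [mem_Low, mem_Low]
  constructor
  · rintro ⟨h1, h2, h3⟩
    rw [cell_env h1.le hw] at h3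
    refine ⟨h1, fun i hi hiz => ?_, h3⟩
    by_cases hc : Cell r k w i (w i)
    · rw [hiz] at hc
      exact h3 (cell_mono hi.le le_rfl hc)
    · apply h2 i hi
      rw [env_neg hc]
      exact hiz
  · rintro ⟨h1, h2, h3⟩
    refine ⟨h1, fun i hi hiz => ?_, ?_⟩
    · by_cases hc : Cell r k w i (w i)
      · rw [env_pos hc] at hiz
        omega
      · rw [env_neg hc] at hiz
        exact h2 i hi hiz
    · rw [cell_env h1.le hw]
      exact h3

theorem update_lt {w : ℕ → ℕ} {t y : ℕ} (hw : ∀ i < t, w i < n) (hy : y < n) :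
    ∀ i < t + 1, update w t y i < n := by
  intro i hi
  by_cases hit : i = t
  · subst hit
    rw [update_self]
    exact hy
  · rw [agree_update w t y i (by omega)]
    exact hw i (by omega)

theorem new_low {w : ℕ → ℕ} {t y : ℕ} (hw : ∀ i < t, w i < n) (hy : y < n)
    (hlow : ¬ Cell r k w t y) :
    New r k n (env r k n w) t y = (NewSet r k n w t y).card := by
  unfold New NewSet
  rw [low_env hw]
  congr 1
  ext z
  simp only [mem_filter]
  constructor
  · rintro ⟨h1, h2, h3⟩
    refine ⟨h1, h2, ?_⟩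
    rw [← cell_congr (env_update hlow), cell_env (mem_Low.1 h1).1.le (update_lt hw hy)] at h3
    exact h3
  · rintro ⟨h1, h2, h3⟩
    refine ⟨h1, h2, ?_⟩
    rw [← cell_congr (env_update hlow), cell_env (mem_Low.1 h1).1.le (update_lt hw hy)]
    exact h3

theorem new_high {w : ℕ → ℕ} {t y : ℕ} (hw : ∀ i < t, w i < n) (hy : y < n)
    (hhi : Cell r k w t y) :
    New r k n (env r k n w) t n = (NewSet r k n w t y).card := by
  unfold New NewSet
  rw [low_env hw]
  congr 1
  ext z
  simp only [mem_filter]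
  constructor
  · rintro ⟨h1, h2, h3⟩
    refine ⟨h1, ?_, ?_⟩
    · rintro rfl
      exact (mem_Low.1 h1).2.2 hhi
    · rw [← cell_congr (env_update' hhi), cell_env (mem_Low.1 h1).1.le (update_lt hw hy)] at h3
      exact h3
  · rintro ⟨h1, h2, h3⟩
    refine ⟨h1, ?_, ?_⟩
    · have := (mem_Low.1 h1).1
      omega
    · rw [← cell_congr (env_update' hhi), cell_env (mem_Low.1 h1).1.le (update_lt hw hy)]
      exact h3

/-- Splitting the available values. -/
theorem sum_avail (w : ℕ → ℕ) (t : ℕ) (φ : ℕ → ℕ) [DecidablePred fun y => Free w t y] :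
    ∑ y ∈ (range n).filter (fun y => Free w t y), φ y =
      (∑ y ∈ Low r k n w t, φ y) + (∑ y ∈ U r k n ρ w t, φ y + ∑ y ∈ N r k n ρ w t, φ y) := by
  classical
  have h1 : (range n).filter (fun y => Free w t y) = Low r k n w t ∪ Hi r k n w t := by
    ext z
    rw [mem_union, mem_Low, mem_Hi, mem_filter, mem_range]
    by_cases hc : Cell r k w t z
    · simp [hc]
    · simp [hc]
  have h2 : Disjoint (Low r k n w t) (Hi r k n w t) := by
    rw [Finset.disjoint_left]
    intro z hz hz'
    exact (mem_Low.1 hz).2.2 (mem_Hi.1 hz').2.2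
  rw [h1, Finset.sum_union h2]
  congr 1
  unfold U N
  rw [Finset.sum_filter_add_sum_filter_not]

end step

end Pool.Agent.Lib.MP_47869a_co
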