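import Mathlib
import Pool.Agent.Lib.MP_47869a_co.Step

set_option autoImplicit false

/-!
Comparison of the two processes.
-/

namespace Pool.Agent.Lib.MP_47869a_co

open Finset Function

variable {r k n : ℕ} {ρ : ℕ → ℕ → Prop}

theorem state_low {w : ℕ → ℕ} {t v : ℕ} (hw : ∀ i < t, w i < n) (hv : v ∈ Low r k n w t) :
    FF r k n ρ (update w t v) (t + 1) = FF r k n ρ w t ∧
    (N r k n ρ (update w t v) (t + 1)).card =
      (N r k n ρ w t).card + New r k n (env r k n w) t v := by
  have hv' := mem_Low.1 hv
  have hB : B r k n ρ w t v = ∅ := by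
    rw [Finset.eq_empty_iff_forall_notMem]
    intro z hz
    exact hv'.2.2 (mem_B.1 hz).2.2.1
  have hU : v ∉ U r k n ρ w t := by
    intro h
    exact hv'.2.2 (mem_Hi.1 (mem_U.1 h).1).2.2
  have hN : v ∉ N r k n ρ w t := by
    intro h
    exact hv'.2.2 (mem_Hi.1 (mem_N.1 h).1).2.2
  constructor
  · rw [FF_update, hB, Finset.erase_eq_of_notMem hU]
    simp [FF]
  · rw [cardN_update, hB, Finset.erase_eq_of_notMem hN, new_low hw hv'.1 hv'.2.2]
    simp

theorem B_card_le {w : ℕ → ℕ} {t y : ℕ} :
    (B r k n ρ w t y).card ≤ ((N r k n ρ w t).erase y).card := by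
  apply Finset.card_le_card
  intro z hz
  rw [mem_B] at hz
  exact mem_erase.2 ⟨hz.2.1, hz.1⟩

theorem state_U {w : ℕ → ℕ} {t y : ℕ} (hw : ∀ i < t, w i < n) (hy : y ∈ U r k n ρ w t) :
    FF r k n ρ (update w t y) (t + 1) = (FF r k n ρ w t).erase (dl r k ρ w t y) +
      Multiset.replicate (B r k n ρ w t y).card (t + r + 1) ∧
    (N r k n ρ (update w t y) (t + 1)).card =
      (N r k n ρ w t).card - (B r k n ρ w t y).card + New r k n (env r k n w) t n ∧
    (B r k n ρ w t y).card ≤ (N r k n ρ w t).card := by
  have hyH := mem_Hi.1 (mem_U.1 hy).1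
  have hN : y ∉ N r k n ρ w t := by
    intro h
    exact (mem_N.1 h).2 (mem_U.1 hy).2
  refine ⟨?_, ?_, ?_⟩
  · rw [FF_update]
    congr 1
    unfold FF
    rw [Finset.erase_val]
    exact Multiset.map_erase_of_mem _ _ hy
  · rw [cardN_update, Finset.erase_eq_of_notMem hN, new_high hw hyH.1 hyH.2.2]
  · have := B_card_le (r := r) (k := k) (n := n) (ρ := ρ) (w := w) (t := t) (y := y)
    rwa [Finset.erase_eq_of_notMem hN] at this

theorem B_eq_filter {w : ℕ → ℕ} {t y : ℕ} (hirr : ∀ a, ¬ ρ a a) (hy : y ∈ N r k n ρ w t)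
    [DecidablePred (fun z => ρ y z)] :
    B r k n ρ w t y = (N r k n ρ w t).filter (fun z => ρ y z) := by
  have hyH := mem_Hi.1 (mem_N.1 hy).1
  ext z
  rw [mem_B, mem_filter]
  constructor
  · rintro ⟨h1, -, -, h2⟩
    exact ⟨h1, h2⟩
  · rintro ⟨h1, h2⟩
    refine ⟨h1, ?_, hyH.2.2, h2⟩
    rintro rfl
    exact hirr _ h2

theorem state_N {w : ℕ → ℕ} {t y : ℕ} (hw : ∀ i < t, w i < n) (hy : y ∈ N r k n ρ w t) :
    FF r k n ρ (update w t y) (t + 1) = FF r k n ρ w t +
      Multiset.replicate (B r k n ρ w t y).card (t + r + 1) ∧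
    (N r k n ρ (update w t y) (t + 1)).card =
      (N r k n ρ w t).card - 1 - (B r k n ρ w t y).card + New r k n (env r k n w) t n := by
  have hyH := mem_Hi.1 (mem_N.1 hy).1
  have hU : y ∉ U r k n ρ w t := by
    intro h
    exact (mem_N.1 hy).2 (mem_U.1 h).2
  refine ⟨?_, ?_⟩
  · rw [FF_update, Finset.erase_eq_of_notMem hU]
    rfl
  · rw [cardN_update, Finset.card_erase_of_mem hy, new_high hw hyH.1 hyH.2.2]

theorem not_good_update {w : ℕ → ℕ} {t y : ℕ} (h : ¬ Good r k ρ w t) :
    ¬ Good r k ρ (update w t y) (t + 1) := by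
  intro hg
  apply h
  intro c c' h1 h2 h3 h4
  have := hg c c' (by omega) h2
  rw [agree_update w t y c (by omega), agree_update w t y c' h1, cell_update (by omega),
    cell_update (by omega)] at this
  exact this h3 h4

theorem good_update {w : ℕ → ℕ} {t y : ℕ} (h : Good r k ρ w t)
    (hy : ∀ c, c + r + 1 ≤ t → Cell r k w c y → Cell r k w c (w c) → ¬ ρ (w c) y) :
    Good r k ρ (update w t y) (t + 1) := by
  intro c c' h1 h2
  by_cases hc' : c' = t
  · subst hc'
    rw [agree_update w c' y c (by omega), update_self, cell_update (by omega),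
      cell_update (by omega)]
    exact hy c h2
  · rw [agree_update w t y c (by omega), agree_update w t y c' (by omega),
      cell_update (by omega), cell_update (by omega)]
    exact h c c' (by omega) h2

theorem cnt_zero : ∀ (s t : ℕ) (w : ℕ → ℕ), t + s = n → ¬ Good r k ρ w t →
    Cnt n (fun w => Good r k ρ w n) s t w = 0
  | 0, t, w, hts, hg => by
    have : t = n := by omega
    subst this
    simp [Cnt, hg]
  | s + 1, t, w, hts, hg => by
    simp only [Cnt]
    apply Finset.sum_eq_zero
    intro y _
    exact cnt_zero s (t + 1) _ (by omega) (not_good_update hg)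

theorem sum_U (w : ℕ → ℕ) (t : ℕ) (φ : ℕ → ℕ) :
    ((FF r k n ρ w t).map φ).sum = ∑ y ∈ U r k n ρ w t, φ (dl r k ρ w t y) := by
  unfold FF
  rw [Multiset.map_map]
  rfl

/-- The `τ`-process is bounded by `V`. -/
theorem main_T : ∀ (s t : ℕ) (w : ℕ → ℕ), t + s = n → (∀ i < t, w i < n) →
    Cnt n (fun w => Good r k (fun a b => b < a) w n) s t w ≤
      V r k n s t (env r k n w) (FF r k n (fun a b => b < a) w t)
        (N r k n (fun a b => b < a) w t).card
  | 0, t, w, hts, hw => by
    simp only [Cnt, V]
    split_ifs <;> omega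
  | s + 1, t, w, hts, hw => by
    classical
    have ih := fun (y : ℕ) (hy : y < n) =>
      main_T s (t + 1) (update w t y) (by omega) (update_lt hw hy)
    rw [Cnt, V]
    rw [sum_avail (k := k) (r := r) (ρ := fun a b => b < a), low_env hw]
    apply Nat.add_le_add
    · apply Finset.sum_le_sum
      intro v hv
      have hv' := mem_Low.1 hv
      obtain ⟨e1, e2⟩ := state_low (ρ := fun a b => b < a) hw hv
      have := ih v hv'.1
      rw [e1, e2, V_congr _ _ _ _ _ _ (env_update hv'.2.2)] at this
      exact this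
    apply Nat.add_le_add
    · rw [sum_U]
      apply Finset.sum_le_sum
      intro y hy
      have hyH := mem_Hi.1 (mem_U.1 hy).1
      split_ifs with hlt
      · obtain ⟨e1, e2, e3⟩ := state_U hw hy
        have := ih y hyH.1
        rw [e1, e2, V_congr _ _ _ _ _ _ (env_update' hyH.2.2)] at this
        refine this.trans ((V_mono_rep _ _ _ _ _ (by omega) _ _).trans ?_)
        apply le_of_eq
        congr 1
        omega
      · apply le_of_eq
        apply cnt_zero _ _ _ (by omega)
        intro hg
        obtain ⟨c₀, hc₀⟩ := (mem_U.1 hy).2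
        have hmem := Nat.sInf_mem (s := {c | c < t ∧ Cell r k w c y ∧ Cell r k w c (w c) ∧
          y < w c}) ⟨c₀, hc₀⟩
        have hle : sInf {c | c < t ∧ Cell r k w c y ∧ Cell r k w c (w c) ∧ y < w c} + r + 1 ≤
            t := by
          have := not_lt.1 hlt
          unfold dl at this
          exact this
        generalize sInf {c | c < t ∧ Cell r k w c y ∧ Cell r k w c (w c) ∧ y < w c} = c
          at hmem hle
        obtain ⟨h1, h2, h3, h4⟩ := hmem
        have := hg c t (by omega) (by omega)
        rw [agree_update w t y c h1, update_self, cell_update (by omega),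
          cell_update (by omega)] at this
        exact this h2 h3 h4
    · rw [← rank_sum_lt (N r k n (fun a b => b < a) w t)]
      apply Finset.sum_le_sum
      intro y hy
      have hyH := mem_Hi.1 (mem_N.1 hy).1
      obtain ⟨e1, e2⟩ := state_N hw hy
      have := ih y hyH.1
      rw [e1, e2, V_congr _ _ _ _ _ _ (env_update' hyH.2.2),
        B_eq_filter (ρ := fun a b => b < a) (fun a => lt_irrefl a) hy] at this
      exact this

/-- The `ι`-process dominates `V`. -/
theorem main_I : ∀ (s t : ℕ) (w : ℕ → ℕ), t + s = n → (∀ i < t, w i < n) →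
    Good r k (fun a b => a < b) w t →
    V r k n s t (env r k n w) (FF r k n (fun a b => a < b) w t)
        (N r k n (fun a b => a < b) w t).card ≤
      Cnt n (fun w => Good r k (fun a b => a < b) w n) s t w
  | 0, t, w, hts, hw, hg => by
    have : t = n := by omega
    subst this
    simp [Cnt, V, hg]
  | s + 1, t, w, hts, hw, hg => by
    classical
    have ih := fun (y : ℕ) (hy : y < n) =>
      main_I s (t + 1) (update w t y) (by omega) (update_lt hw hy)
    rw [Cnt, V]
    rw [sum_avail (k := k) (r := r) (ρ := fun a b => a < b), low_env hw]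
    apply Nat.add_le_add
    · apply Finset.sum_le_sum
      intro v hv
      have hv' := mem_Low.1 hv
      obtain ⟨e1, e2⟩ := state_low (ρ := fun a b => a < b) hw hv
      have := ih v hv'.1 (good_update hg (fun c hc h1 _ _ =>
        hv'.2.2 (cell_mono (by omega) le_rfl h1)))
      rw [e1, e2, V_congr _ _ _ _ _ _ (env_update hv'.2.2)] at this
      exact this
    apply Nat.add_le_add
    · rw [sum_U]
      apply Finset.sum_le_sum
      intro y hy
      have hyH := mem_Hi.1 (mem_U.1 hy).1
      split_ifs with hlt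
      · obtain ⟨e1, e2, e3⟩ := state_U hw hy
        have hB : B r k n (fun a b => a < b) w t y = ∅ := by
          rw [Finset.eq_empty_iff_forall_notMem]
          intro z hz
          obtain ⟨hzN, hzy, -, hyz⟩ := mem_B.1 hz
          obtain ⟨c, h1, h2, h3, h4⟩ := (mem_U.1 hy).2
          apply (mem_N.1 hzN).2
          exact ⟨c, h1, cell_mono le_rfl (le_of_lt hyz) h2, h3, lt_trans h4 hyz⟩
        have := ih y hyH.1 (good_update hg (fun c hc h1 h2 h3 => by
          have h5 : dl r k (fun a b => a < b) w t y ≤ c + r + 1 := by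
            unfold dl
            apply Nat.add_le_add_right
            apply Nat.add_le_add_right
            apply Nat.sInf_le
            exact ⟨by omega, h1, h2, h3⟩
          omega))
        rw [e1, e2, V_congr _ _ _ _ _ _ (env_update' hyH.2.2), hB] at this
        simpa using this
      · exact Nat.zero_le _
    · rw [← rank_sum_gt (N r k n (fun a b => a < b) w t)]
      apply Finset.sum_le_sum
      intro y hy
      have hyH := mem_Hi.1 (mem_N.1 hy).1
      obtain ⟨e1, e2⟩ := state_N hw hy
      have := ih y hyH.1 (good_update hg (fun c hc h1 h2 h3 =>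
        (mem_N.1 hy).2 ⟨c, by omega, h1, h2, h3⟩))
      rw [e1, e2, V_congr _ _ _ _ _ _ (env_update' hyH.2.2),
        B_eq_filter (ρ := fun a b => a < b) (fun a => lt_irrefl a) hy] at this
      exact this

theorem compare (w : ℕ → ℕ) :
    Cnt n (fun w => Good r k (fun a b => b < a) w n) n 0 w ≤
      Cnt n (fun w => Good r k (fun a b => a < b) w n) n 0 w := by
  have hH : Hi r k n w 0 = ∅ := by
    rw [Finset.eq_empty_iff_forall_notMem]
    intro z hz
    obtain ⟨i, hi, -⟩ := (mem_Hi.1 hz).2.2
    omega
  have h1 : ∀ ρ : ℕ → ℕ → Prop, FF r k n ρ w 0 = 0 := by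
    intro ρ
    unfold FF U
    rw [hH]
    simp
  have h2 : ∀ ρ : ℕ → ℕ → Prop, (N r k n ρ w 0).card = 0 := by
    intro ρ
    unfold N
    rw [hH]
    simp
  have hT := main_T (r := r) (k := k) (n := n) n 0 w (by omega) (by omega)
  have hI := main_I (r := r) (k := k) (n := n) n 0 w (by omega) (by omega)
    (fun c c' h => by omega)
  rw [h1, h2] at hT hI
  exact hT.trans hI

end Pool.Agent.Lib.MP_47869a_co
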