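import Mathlib
import Pool.Agent.Lib.MP_47869a_co.Compare

set_option autoImplicit false

/-!
Link between the process and permutations.
-/

namespace Pool.Agent.Lib.MP_47869a_co

open Finset Function

section chains

variable {r : ℕ} {w : ℕ → ℕ}

theorem chain_iff (l : ℕ) : ∀ i : ℕ, Chain r w l i ↔
    ∃ f : ℕ → ℕ, f l = i ∧ ∀ a < l, f a + r + 1 ≤ f (a + 1) ∧ w (f a) < w (f (a + 1)) := by
  induction l with
  | zero =>
    intro i
    exact ⟨fun _ => ⟨fun _ => i, rfl, fun a ha => by omega⟩, fun _ => trivial⟩
  | succ l ih =>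
    intro i
    constructor
    · rintro ⟨i', h1, h2, h3⟩
      obtain ⟨f, hf1, hf2⟩ := (ih i').1 h3
      refine ⟨update f (l + 1) i, by simp, ?_⟩
      intro a ha
      by_cases hal : a = l
      · subst hal
        rw [update_self, update_of_ne (by omega), hf1]
        exact ⟨h1, h2⟩
      · rw [update_of_ne (by omega), update_of_ne (by omega)]
        exact hf2 a (by omega)
    · rintro ⟨f, hf1, hf2⟩
      refine ⟨f l, ?_, ?_, ?_⟩
      · rw [← hf1]; exact (hf2 l (by omega)).1
      · rw [← hf1]; exact (hf2 l (by omega)).2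
      · exact (ih (f l)).2 ⟨f, rfl, fun a ha => hf2 a (by omega)⟩

theorem mono_of_step {g : ℕ → ℕ} {l : ℕ} (h : ∀ a < l, g a < g (a + 1)) :
    ∀ a b, a < b → b ≤ l → g a < g b := by
  intro a b hab
  induction b with
  | zero => omega
  | succ b ih =>
    intro hb
    by_cases hab' : a = b
    · subst hab'
      exact h a (by omega)
    · exact (ih (by omega) (by omega)).trans (h b (by omega))

theorem lt_iff_of_step {g : ℕ → ℕ} {l : ℕ} (h : ∀ a < l, g a < g (a + 1)) {a b : ℕ}
    (ha : a ≤ l) (hb : b ≤ l) : g a < g b ↔ a < b := by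
  constructor
  · intro hg
    by_contra hcon
    rcases Nat.lt_or_ge b a with h1 | h1
    · exact absurd hg (not_lt.2 (mono_of_step h b a h1 ha).le)
    · have : a = b := by omega
      subst this
      exact lt_irrefl _ hg
  · intro hab
    exact mono_of_step h a b hab hb

end chains

/-- `π` contains the uniform distant pattern `dist_r(q)`: there are positions
`i_1 < ... < i_m` with consecutive differences at least `r + 1` at which the values of `π` are in
the same relative order as the values of `q`. -/
def Contains (r : ℕ) {m n : ℕ} (q : Equiv.Perm (Fin m)) (π : Equiv.Perm (Fin n)) : Prop :=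
  ∃ i : Fin m → Fin n, (∀ a b : Fin m, (a : ℕ) + 1 = b → (i a : ℕ) + (r + 1) ≤ i b) ∧
    ∀ a b : Fin m, π (i a) < π (i b) ↔ q a < q b

/-- The values of a permutation as a function on `ℕ`. -/
def ext {n : ℕ} (π : Equiv.Perm (Fin n)) : ℕ → ℕ := fun i => if h : i < n then (π ⟨i, h⟩ : ℕ) else n

theorem ext_fin {n : ℕ} (π : Equiv.Perm (Fin n)) (i : Fin n) : ext π i = π i := by
  simp [ext]

theorem contains_iota {r k n : ℕ} (π : Equiv.Perm (Fin n)) :
    Contains r (1 : Equiv.Perm (Fin (k + 3))) π ↔
      ¬ Good r k (fun a b => a < b) (ext π) n := by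
  constructor
  · rintro ⟨i, h1, h2⟩ hg
    have hval : ∀ a b : Fin (k + 3), a < b → ext π (i a) < ext π (i b) := by
      intro a b hab
      rw [ext_fin, ext_fin]
      exact_mod_cast (h2 a b).2 hab
    have hchain : Chain r (ext π) (k + 1) (i ⟨k + 1, by omega⟩) := by
      rw [chain_iff]
      refine ⟨fun a => if h : a < k + 3 then (i ⟨a, h⟩ : ℕ) else 0, by simp, ?_⟩
      intro a ha
      simp only [show a < k + 3 by omega, show a + 1 < k + 3 by omega, dif_pos]
      refine ⟨?_, hval _ _ ?_⟩
      · have := h1 ⟨a, by omega⟩ ⟨a + 1, by omega⟩ rfl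
        omega
      · rw [Fin.lt_def]; simp
    have h3 := hval ⟨k + 1, by omega⟩ ⟨k + 2, by omega⟩ (by rw [Fin.lt_def]; simp)
    have h4 := h1 ⟨k + 1, by omega⟩ ⟨k + 2, by omega⟩ rfl
    refine hg (i ⟨k + 1, by omega⟩) (i ⟨k + 2, by omega⟩) (Fin.is_lt _) (by omega) ?_ hchain h3
    exact cell_mono le_rfl h3.le hchain
  · intro hg
    unfold Good at hg
    push Not at hg
    obtain ⟨c, c', h1, h2, h3, h4, h5⟩ := hg
    have hchain : Chain r (ext π) (k + 2) c' := ⟨c, h2, h5, h4⟩
    obtain ⟨f, hf1, hf2⟩ := (chain_iff (k + 2) c').1 hchain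
    have hmono := mono_of_step (g := f) (l := k + 2) (fun a ha => by
      have := (hf2 a ha).1
      omega)
    have hlt : ∀ a : Fin (k + 3), f a < n := by
      intro a
      by_cases ha : (a : ℕ) = k + 2
      · rw [ha, hf1]; exact h1
      · have := hmono a (k + 2) (by omega) le_rfl
        omega
    refine ⟨fun a => ⟨f a, hlt a⟩, ?_, ?_⟩
    · intro a b hab
      show f a + (r + 1) ≤ f b
      rw [← hab]
      have := (hf2 a (by omega)).1
      omega
    · intro a b
      have key := lt_iff_of_step (g := fun a => ext π (f a)) (l := k + 2)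
        (fun a ha => (hf2 a ha).2) (a := a) (b := b) (by omega) (by omega)
      have e1 : ∀ a : Fin (k + 3), ext π (f a) = π ⟨f a, hlt a⟩ := by
        intro a
        exact ext_fin π ⟨f a, hlt a⟩
      rw [e1, e1] at key
      rw [Fin.lt_def, key, Fin.lt_def]
      rfl

/-- The permutation `1 2 ... (m-2) m (m-1)` of size `m = k + 3`. -/
def tau' (k : ℕ) : Equiv.Perm (Fin (k + 3)) :=
  Equiv.swap ⟨k + 1, by omega⟩ ⟨k + 2, by omega⟩

theorem contains_tau {r k n : ℕ} (π : Equiv.Perm (Fin n)) :
    Contains r (tau' k) π ↔ ¬ Good r k (fun a b => b < a) (ext π) n := by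
  have t1 : tau' k ⟨k + 1, by omega⟩ = ⟨k + 2, by omega⟩ := Equiv.swap_apply_left _ _
  have t2 : tau' k ⟨k + 2, by omega⟩ = ⟨k + 1, by omega⟩ := Equiv.swap_apply_right _ _
  have t3 : ∀ a : Fin (k + 3), (a : ℕ) ≤ k → tau' k a = a := by
    intro a ha
    apply Equiv.swap_apply_of_ne_of_ne
    · intro h; rw [h] at ha; simp at ha
    · intro h; rw [h] at ha; simp at ha
  constructor
  · rintro ⟨i, h1, h2⟩ hg
    have hval : ∀ a b : Fin (k + 3), tau' k a < tau' k b → ext π (i a) < ext π (i b) := by
      intro a b hab
      rw [ext_fin, ext_fin]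
      exact_mod_cast (h2 a b).2 hab
    have hchain : Chain r (ext π) k (i ⟨k, by omega⟩) := by
      rw [chain_iff]
      refine ⟨fun a => if h : a < k + 3 then (i ⟨a, h⟩ : ℕ) else 0, by simp, ?_⟩
      intro a ha
      simp only [show a < k + 3 by omega, show a + 1 < k + 3 by omega, dif_pos]
      refine ⟨?_, hval _ _ ?_⟩
      · have := h1 ⟨a, by omega⟩ ⟨a + 1, by omega⟩ rfl
        omega
      · rw [t3 _ (by simp; omega), t3 _ (by simp; omega), Fin.lt_def]; simp
    have h3 := hval ⟨k + 2, by omega⟩ ⟨k + 1, by omega⟩ (by rw [t1, t2, Fin.lt_def]; simp)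
    have h3' := hval ⟨k, by omega⟩ ⟨k + 2, by omega⟩ (by
      rw [t3 _ (by simp), t2, Fin.lt_def]; simp)
    have h4 := h1 ⟨k + 1, by omega⟩ ⟨k + 2, by omega⟩ rfl
    have h5 := h1 ⟨k, by omega⟩ ⟨k + 1, by omega⟩ rfl
    have hcell : Cell r k (ext π) (i ⟨k + 1, by omega⟩) (ext π (i ⟨k + 2, by omega⟩)) :=
      ⟨i ⟨k, by omega⟩, by omega, h3', hchain⟩
    exact hg (i ⟨k + 1, by omega⟩) (i ⟨k + 2, by omega⟩) (Fin.is_lt _) (by omega) hcell
      (cell_mono le_rfl h3.le hcell) h3
  · intro hg
    unfold Good at hg
    push Not at hg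
    obtain ⟨c, c', h1, h2, ⟨i, hi1, hi2, hi3⟩, h4, h5⟩ := hg
    obtain ⟨f, hf1, hf2⟩ := (chain_iff k i).1 hi3
    -- positions in increasing order
    let g : ℕ → ℕ := fun a => if a ≤ k then f a else if a = k + 1 then c else c'
    have g1 : ∀ a ≤ k, g a = f a := fun a ha => by simp [g, ha]
    have g2 : g (k + 1) = c := by simp [g]
    have g3 : g (k + 2) = c' := by simp [g]
    -- positions in increasing order of values
    let h : ℕ → ℕ := fun a => if a ≤ k then f a else if a = k + 1 then c' else c
    have k1 : ∀ a ≤ k, h a = f a := fun a ha => by simp [h, ha]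
    have k2 : h (k + 1) = c' := by simp [h]
    have k3 : h (k + 2) = c := by simp [h]
    have hgstep : ∀ a < k + 2, g a + r + 1 ≤ g (a + 1) := by
      intro a ha
      rcases Nat.lt_or_ge a k with h' | h'
      · rw [g1 a (by omega), g1 (a + 1) (by omega)]
        exact (hf2 a h').1
      · rcases Nat.eq_or_lt_of_le h' with h'' | h''
        · subst h''
          rw [g1 k le_rfl, g2, hf1]
          exact hi1
        · have : a = k + 1 := by omega
          subst this
          rw [g2, show k + 1 + 1 = k + 2 from rfl, g3]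
          exact h2
    have hhstep : ∀ a < k + 2, ext π (h a) < ext π (h (a + 1)) := by
      intro a ha
      rcases Nat.lt_or_ge a k with h' | h'
      · rw [k1 a (by omega), k1 (a + 1) (by omega)]
        exact (hf2 a h').2
      · rcases Nat.eq_or_lt_of_le h' with h'' | h''
        · subst h''
          rw [k1 k le_rfl, k2, hf1]
          exact hi2
        · have : a = k + 1 := by omega
          subst this
          rw [k2, show k + 1 + 1 = k + 2 from rfl, k3]
          exact h5
    have hmono := mono_of_step (g := g) (l := k + 2) (fun a ha => by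
      have := hgstep a ha
      omega)
    have hlt : ∀ a : Fin (k + 3), g a < n := by
      intro a
      by_cases ha : (a : ℕ) = k + 2
      · rw [ha, g3]; exact h1
      · have := hmono a (k + 2) (by omega) le_rfl
        rw [g3] at this
        omega
    have hgh : ∀ a : Fin (k + 3), g a = h (tau' k a : Fin (k + 3)) := by
      intro a
      rcases Nat.lt_or_ge k (a : ℕ) with h' | h'
      · by_cases ha : (a : ℕ) = k + 1
        · have : a = ⟨k + 1, by omega⟩ := Fin.ext ha
          rw [this, t1]
          show g (k + 1) = h (k + 2)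
          rw [g2, k3]
        · have : a = ⟨k + 2, by omega⟩ := Fin.ext (by simp; omega)
          rw [this, t2]
          show g (k + 2) = h (k + 1)
          rw [g3, k2]
      · rw [t3 a h', g1 a h', k1 a h']
    refine ⟨fun a => ⟨g a, hlt a⟩, ?_, ?_⟩
    · intro a b hab
      show g a + (r + 1) ≤ g b
      rw [← hab]
      have := hgstep a (by omega)
      omega
    · intro a b
      have key : ext π (h (tau' k a : Fin (k + 3))) < ext π (h (tau' k b : Fin (k + 3))) ↔
          ((tau' k a : Fin (k + 3)) : ℕ) < (tau' k b : Fin (k + 3)) :=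
        lt_iff_of_step (g := fun a => ext π (h a)) (l := k + 2)
          hhstep (a := (tau' k a : Fin (k + 3))) (b := (tau' k b : Fin (k + 3))) (by omega)
          (by omega)
      rw [← hgh, ← hgh] at key
      have e1 : ∀ a : Fin (k + 3), ext π (g a) = π ⟨g a, hlt a⟩ := by
        intro a
        exact ext_fin π ⟨g a, hlt a⟩
      rw [e1, e1] at key
      rw [Fin.lt_def, key, Fin.lt_def]

/-- Counting permutations with a prescribed beginning. -/
theorem cnt_perm {n : ℕ} (P : (ℕ → ℕ) → Prop)
    (hP : ∀ w w' : ℕ → ℕ, (∀ i < n, w i = w' i) → (P w ↔ P w')) :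
    ∀ (s t : ℕ) (w : ℕ → ℕ), t + s = n → (∀ i < t, w i < n) →
      (∀ i < t, ∀ j < t, w i = w j → i = j) →
      Nat.card {π : Equiv.Perm (Fin n) // (∀ i < t, ext π i = w i) ∧ P (ext π)} =
        Cnt n P s t w
  | 0, t, w, hts, hw, hinj => by
    have htn : t = n := by omega
    subst htn
    by_cases hPw : P w
    · have hbij : Function.Bijective (fun i : Fin t => (⟨w i, hw i i.2⟩ : Fin t)) := by
        rw [← Finite.injective_iff_bijective]
        intro i j hij
        simp only [Fin.mk.injEq] at hij
        exact Fin.ext (hinj i i.2 j j.2 hij)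
      have hext : ∀ i < t, ext (Equiv.ofBijective _ hbij) i = w i := by
        intro i hi
        simp [ext, hi]
      have hone : Nat.card {π : Equiv.Perm (Fin t) // (∀ i < t, ext π i = w i) ∧ P (ext π)} = 1 := by
        rw [Nat.card_eq_one_iff_unique]
        refine ⟨⟨?_⟩, ⟨⟨Equiv.ofBijective _ hbij, hext, (hP _ _ hext).2 hPw⟩⟩⟩
        rintro ⟨π, h1, h2⟩ ⟨π', h1', h2'⟩
        apply Subtype.ext
        apply Equiv.ext
        intro i
        apply Fin.ext
        show (π i : ℕ) = π' i
        rw [← ext_fin, ← ext_fin, h1 i i.2, h1' i i.2]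
      rw [hone]
      simp [Cnt, hPw]
    · have hzero : Nat.card {π : Equiv.Perm (Fin t) // (∀ i < t, ext π i = w i) ∧ P (ext π)} =
          0 := by
        rw [Nat.card_eq_zero]
        left
        constructor
        rintro ⟨π, h1, h2⟩
        exact hPw ((hP _ _ h1).1 h2)
      rw [hzero]
      simp [Cnt, hPw]
  | s + 1, t, w, hts, hw, hinj => by
    classical
    have htn : t < n := by omega
    rw [Cnt]
    have ih : ∀ y ∈ (range n).filter (fun y => Free w t y),
        Cnt n P s (t + 1) (update w t y) =
        Nat.card {π : Equiv.Perm (Fin n) // (∀ i < t + 1, ext π i = update w t y i) ∧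
          P (ext π)} := by
      intro y hy
      rw [mem_filter, mem_range] at hy
      symm
      apply cnt_perm P hP s (t + 1) _ (by omega) (update_lt hw hy.1)
      intro i hi j hj hij
      by_cases hit : i = t
      · by_cases hjt : j = t
        · rw [hit, hjt]
        · exfalso
          subst hit
          rw [update_self, agree_update w i y j (by omega)] at hij
          exact hy.2 j (by omega) hij.symm
      · by_cases hjt : j = t
        · exfalso
          subst hjt
          rw [update_self, agree_update w j y i (by omega)] at hij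
          exact hy.2 i (by omega) hij
        · rw [agree_update w t y i (by omega), agree_update w t y j (by omega)] at hij
          exact hinj i (by omega) j (by omega) hij
    rw [Finset.sum_congr rfl ih]
    -- decompose according to the value at position `t`
    have hfib : ∀ π : Equiv.Perm (Fin n), (∀ i < t, ext π i = w i) →
        ext π t ∈ (range n).filter (fun y => Free w t y) := by
      intro π hπ
      have e1 : ext π t = π ⟨t, htn⟩ := ext_fin π ⟨t, htn⟩
      rw [mem_filter, mem_range]
      refine ⟨by rw [e1]; exact Fin.is_lt _, fun i hi h => ?_⟩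
      rw [← hπ i hi, e1] at h
      have e2 : ext π i = π ⟨i, by omega⟩ := ext_fin π ⟨i, by omega⟩
      rw [e2] at h
      have h' := π.injective (Fin.ext h)
      rw [Fin.mk.injEq] at h'
      omega
    simp only [Nat.card_eq_fintype_card, Fintype.card_subtype]
    rw [Finset.card_eq_sum_card_fiberwise (f := fun π => ext π t)
      (t := (range n).filter (fun y => Free w t y))]
    · apply Finset.sum_congr rfl
      intro y hy
      congr 1
      ext π
      simp only [mem_filter, mem_univ, true_and]
      constructor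
      · rintro ⟨⟨h1, h2⟩, h3⟩
        refine ⟨fun i hi => ?_, h2⟩
        by_cases hit : i = t
        · subst hit
          rw [update_self]
          exact h3
        · rw [agree_update w t y i (by omega)]
          exact h1 i (by omega)
      · rintro ⟨h1, h2⟩
        refine ⟨⟨fun i hi => ?_, h2⟩, ?_⟩
        · have := h1 i (by omega)
          rwa [agree_update w t y i hi] at this
        · have := h1 t (by omega)
          rwa [update_self] at this
    · intro π hπ
      simp only [coe_filter, mem_univ, true_and, Set.mem_ofPred_eq] at hπ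
      exact mem_coe.2 (hfib π hπ.1)

theorem good_congr {r k n : ℕ} {ρ : ℕ → ℕ → Prop} (w w' : ℕ → ℕ) (h : ∀ i < n, w i = w' i) :
    Good r k ρ w n ↔ Good r k ρ w' n := by
  have aux : ∀ w w' : ℕ → ℕ, (∀ i < n, w i = w' i) → Good r k ρ w n → Good r k ρ w' n := by
    intro w w' h hg c c' h1 h2 h3 h4
    have := hg c c' h1 h2
    rw [h c (by omega), h c' h1, cell_congr (w' := w') (fun j hj => h j (by omega)),
      cell_congr (w' := w') (fun j hj => h j (by omega))] at this
    exact this h3 h4
  exact ⟨aux w w' h, aux w' w (fun i hi => (h i hi).symm)⟩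

theorem count_eq {r k n : ℕ} (ρ : ℕ → ℕ → Prop) :
    Nat.card {π : Equiv.Perm (Fin n) // Good r k ρ (ext π) n} =
      Cnt n (fun w => Good r k ρ w n) n 0 (fun _ => 0) := by
  rw [← cnt_perm (fun w => Good r k ρ w n) (fun w w' h => good_congr w w' h) n 0 (fun _ => 0)
    (by omega) (by omega) (by omega)]
  apply Nat.card_congr
  apply Equiv.subtypeEquivRight
  intro π
  constructor
  · intro h
    exact ⟨fun i hi => by omega, h⟩
  · intro h
    exact h.2

theorem main (r k n : ℕ) :
    Nat.card {π : Equiv.Perm (Fin n) // ¬ Contains r (tau' k) π} ≤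
      Nat.card {π : Equiv.Perm (Fin n) // ¬ Contains r (1 : Equiv.Perm (Fin (k + 3))) π} := by
  have h1 : Nat.card {π : Equiv.Perm (Fin n) // ¬ Contains r (tau' k) π} =
      Nat.card {π : Equiv.Perm (Fin n) // Good r k (fun a b => b < a) (ext π) n} := by
    apply Nat.card_congr
    apply Equiv.subtypeEquivRight
    intro π
    rw [contains_tau, not_not]
  have h2 : Nat.card {π : Equiv.Perm (Fin n) // ¬ Contains r (1 : Equiv.Perm (Fin (k + 3))) π} =
      Nat.card {π : Equiv.Perm (Fin n) // Good r k (fun a b => a < b) (ext π) n} := by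
    apply Nat.card_congr
    apply Equiv.subtypeEquivRight
    intro π
    rw [contains_iota, not_not]
  rw [h1, h2, count_eq, count_eq]
  exact compare _

end Pool.Agent.Lib.MP_47869a_co
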